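import Pool.Agent.Run7.h770.OP.NegInt
set_option autoImplicit false

/-!
# The Beilinson-Bloch conjecture for `K_2` of the hyperelliptic curves `y² = F(x)² + 4`

Let `m ≠ 0` and `b_0, ..., b_g` be rational integers, the `b_i` different, `F = m ∏ (x - b_i)` and

  `X : y² = F(x)² + 4`, that is, `z - 1/z = F(x)`, `z = (F + y) / 2`.

If `g ≥ 4`, or `g ≥ 2` and `|m| ≥ 2`, or `g ≥ 1` and `|m| ≥ 3`, or `|m| (b_i - b_j) ≥ 6` for some `i`, `j`
(so for all but finitely many curves of each genus `g ≥ 1`, up to translations of `x`), then `X` has genus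
`g`, and the `g` symbols `{z², (x - b_i) / (x - b_0)} = 2 {z, (x - b_i) / (x - b_0)}` are unramified at all
discrete valuations of the function field (so they are integral), and have linearly independent
regulators: every one of these curves has the number `g` of independent integral classes which is
predicted by the conjecture.  The unit `z` has norm `-1`; over `ℚ(i)` the curve becomes
`w + 1/w = i F(x)`, `w = i z`, but not over `ℚ`.  The same over number fields, under a condition on the
critical values of `F`: they lie outside of the ellipse `|v - 2 i| + |v + 2 i| = 3 √2`, for example real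
critical values with `v² > 1/2`.

The proof applies the theorem of the starting file `EllipseCriterion` over `ℂ` to the curve
`w + 1/w = i F(x)`; the symbol `{z², u}` becomes `{-w², u} = 2 {w, u}`, and `z² = P + Q y` with
`P = (F² + 2) / 2`, `Q = F / 2`, `P² - (F² + 4) Q² = 1`, is used for the integrality.  The critical values of
`F` are real and bounded from below by the starting file `N686/DI/Int2`.
-/

namespace Pool.Agent.Results.MP_743d1e_nt.NormMinusOneFamily

open Polynomial

open Pool.Agent.TH826.MK (KQ symb Torus Unramified)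

open Pool.Agent.Y94.R (HRing HOpen toH hcst hent hDel hDel_ne_zero liftH liftH_toH isDomain_HRing
  hsymb_unramified)

open Pool.Agent.Run7.h770.NM (DN PN FN pellN CritOutsideN exists_toriN separable_DN natDegree_DN
  natDegree_FN eval_FN crit_intN integral_PN)

/-- The polynomial `D = F² + 4`, `F = λ ∏ (x - b_i)`. -/
noncomputable def crv {K : Type*} [Field K] {n : ℕ} (lam : K) (b : Fin n → K) : K[X] :=
  DN (FN lam b)

/-- The coordinate ring of the open part `∏ (x - b_i) ≠ 0` of the curve `y² = D(x)`. -/
abbrev Open {K : Type*} [Field K] {n : ℕ} (lam : K) (b : Fin n → K) : Type _ :=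
  HOpen (crv lam b) b

/-- The class `{z², (x - b_i) / (x - b_j)}`, `z² = P(x) + Q(x) y = (F² + 2 + F y) / 2`,
`z = (F + y) / 2`, in `K_2 ⊗ ℚ` of the coordinate ring of the open part of the curve
`y² = F² + 4`, `F = λ ∏ (x - b_i)`. -/
noncomputable def cls {K : Type*} [Field K] [CharZero K] {n : ℕ} (lam : K) (b : Fin n → K)
    (i j : Fin n) : KQ (Open lam b) 2 :=
  symb (hent b (pellN (FN lam b) two_ne_zero) i j)

/-- `D` is separable of degree `2 g + 2`, so the smooth projective model of the curve `y² = D(x)` has
genus `g`, and the affine coordinate ring `K[x, y] / (y² - D)` is a domain. -/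
def IsCurve {K : Type*} [Field K] (D : K[X]) (g : ℕ) : Prop :=
  D.natDegree = 2 * g + 2 ∧ D.Separable ∧ IsDomain (HRing D)

/-- The field of fractions of the affine coordinate ring receives the ring of the open part. -/
def InFunctionField.{u, v} {K : Type u} [Field K] {n : ℕ} (lam : K) (b : Fin n → K) : Prop :=
  ∀ (L : Type v) [Field L] [Algebra (HRing (crv lam b)) L] [IsFractionRing (HRing (crv lam b)) L],
    ∃ f : Open lam b →+* L, ∀ a : HRing (crv lam b), f (toH _ b a) = algebraMap _ L a

/-- The images of the classes in `K_2(M) ⊗ ℚ` are unramified at all discrete valuations of `M`, for all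
fields `M` with a homomorphism from the ring of the open part. -/
def UnramifiedClasses.{u, v} {K : Type u} [Field K] [CharZero K] {n : ℕ} (lam : K)
    (b : Fin n → K) : Prop :=
  ∀ (M : Type v) [Field M] (f : Open lam b →+* M) (i j : Fin n),
    KQ.map 2 f (cls lam b i j) ∈ Unramified M 2

/-- There are `g` loops in the complex points over `σ` such that the determinant of the regulators on
them of the `g` classes `{z², (x - b_i) / (x - b_0)}` is not zero. -/
def IndependentRegulators {K : Type*} [Field K] [CharZero K] (σ : K →+* ℂ) {g : ℕ} (lam : K)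
    (b : Fin (g + 1) → K) : Prop :=
  ∃ Γ : Fin g → Torus (Open lam b) 1,
    (∀ t θ (c : K), (Γ t).e θ (hcst _ b c) = σ c) ∧
    (Matrix.of fun t i : Fin g => (Γ t).reg (cls lam b i.succ 0)).det ≠ 0

/-- The conclusions for the curve `y² = F² + 4`, `F = λ ∏ (x - b_i)`, over the field `K` with the
complex embedding `σ`: it has genus `g`, and the `g` classes `{z², (x - b_i) / (x - b_0)}`, which are
defined in the function field, are unramified at all discrete valuations and have linearly
independent regulators. -/
def GenusManyClasses.{u, v} {K : Type u} [Field K] [CharZero K] (σ : K →+* ℂ) {g : ℕ} (lam : K)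
    (b : Fin (g + 1) → K) : Prop :=
  IsCurve (crv lam b) g ∧ InFunctionField.{u, v} lam b ∧ UnramifiedClasses.{u, v} lam b ∧
    IndependentRegulators σ lam b

theorem criterion.{u, v} {K : Type u} [Field K] [CharZero K] (σ : K →+* ℂ) {g : ℕ} (lam : K)
    (b : Fin (g + 1) → K) (hl0 : lam ≠ 0) (hl : IsIntegral ℤ lam) (hb : ∀ i, IsIntegral ℤ (b i))
    (hinj : Function.Injective b) (hc : CritOutsideN σ (FN lam b)) :
    GenusManyClasses.{u, v} σ lam b := by
  have hdeg := natDegree_FN hl0 b
  have hsep := separable_DN hc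
  have hD := natDegree_DN hdeg
  refine ⟨⟨hD, hsep, isDomain_HRing hsep.squarefree (by
    change 0 < (DN (FN lam b)).natDegree
    omega)⟩, ?_, ?_, exists_toriN hdeg hinj (fun i => eval_FN lam b i) hc two_ne_zero⟩
  · intro L _ _ _
    have hi : Function.Injective (algebraMap (HRing (crv lam b)) L) :=
      IsFractionRing.injective _ _
    have hne : algebraMap (HRing (crv lam b)) L (hDel _ b) ≠ 0 := by
      rw [Ne, map_eq_zero_iff _ hi]
      exact hDel_ne_zero b
    exact ⟨liftH (algebraMap _ L) hne, fun a => liftH_toH _ _ _⟩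
  · intro M _ f i j
    refine hsymb_unramified _ b f σ (integral_PN hl hb two_ne_zero rfl) hb i j
      fun k => ⟨1, 1, one_ne_zero, by norm_num, ?_⟩
    have h2 : (2 : K) * (2⁻¹) = 1 := mul_inv_cancel₀ two_ne_zero
    have h3 : (2 : K) * (PN (FN lam b)).eval (b k) = (FN lam b).eval (b k) ^ 2 + 2 := by
      unfold PN
      simp only [eval_mul, eval_C, eval_add, eval_pow, eval_ofNat]
      rw [← mul_assoc, h2, one_mul]
    rw [h3, eval_FN, zero_pow two_ne_zero, zero_add, map_ofNat]
    norm_num

/-- *Number fields.* Let `K` be a number field, `σ` a complex embedding of `K`, let `λ ≠ 0` and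
`b_0, ..., b_g` be algebraic integers of `K`, the `b_i` different, and `F = λ ∏ (x - b_i)`. Suppose that
`|v - 2 i| + |v + 2 i| > 3 √2` for all critical values `v` of `F` at `σ`. Then `GenusManyClasses` holds
for the curve `y² = F(x)² + 4`.

*Rational integers.* Let `m ≠ 0` and `b_0, ..., b_g` be rational integers, the `b_i` different. Suppose
that `g ≥ 4`, or `g ≥ 2` and `|m| ≥ 2`, or `g ≥ 1` and `|m| ≥ 3`, or `|m| (b_i - b_j) ≥ 6` for some `i`,
`j`. Then `GenusManyClasses` holds for the curve `y² = F(x)² + 4`, `F = m ∏ (x - b_i)`, over `ℚ`. -/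
theorem result.{u, v} (g : ℕ) :
    (∀ (K : Type u) [Field K] [NumberField K] (σ : K →+* ℂ) (lam : K) (b : Fin (g + 1) → K),
      lam ≠ 0 → IsIntegral ℤ lam → (∀ i, IsIntegral ℤ (b i)) → Function.Injective b →
      CritOutsideN σ (FN lam b) → GenusManyClasses.{u, v} σ lam b) ∧
    ∀ (m : ℤ) (b : Fin (g + 1) → ℤ), m ≠ 0 → Function.Injective b →
      (4 ≤ g ∨ 2 ≤ g ∧ 2 ≤ |m| ∨ 1 ≤ g ∧ 3 ≤ |m| ∨ ∃ i j, 6 ≤ |m| * (b i - b j)) →
      ∀ σ : ℚ →+* ℂ, GenusManyClasses.{0, v} σ (m : ℚ) fun i => (b i : ℚ) := by
  refine ⟨fun K _ _ σ lam b hl0 hl hb hinj hc =>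
    criterion.{u, v} σ lam b hl0 hl hb hinj hc, fun m b hm hinj h σ => ?_⟩
  exact criterion.{0, v} σ (m : ℚ) _ (by exact_mod_cast hm)
    (isIntegral_algebraMap (R := ℤ) (A := ℚ) (x := m))
    (fun i => isIntegral_algebraMap (R := ℤ) (A := ℚ) (x := b i))
    (fun i j hij => hinj (by exact_mod_cast hij)) (crit_intN hm b hinj h σ)

end Pool.Agent.Results.MP_743d1e_nt.NormMinusOneFamily
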