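import Pool.Agent.Run7.h770.OP.Sep
set_option autoImplicit false

/-!
# The Beilinson-Bloch conjecture for `K_2` of the hyperelliptic curves `y² + f(t) y + t^(2g+1) = 0`

Let `m ≠ 0` and `b_1, ..., b_g` be rational integers, the `b_i` different and not zero,
`H = m ∏ (x - b_i)` and

  `X : y² = D(x)`, `D = x (x H(x)² - 4)`.

In the coordinate `t = 1/x` this is the family `y² + f(t) y + t^(2g+1) = 0`, `f = t^g H(1/t)`, of
Dokchitser, de Jeu and Zagier, the family with a rational Weierstrass point.  If `g ≥ 5`, or `g ≥ 4` and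
`|m| ≥ 3`, or `g ≥ 3` and `|m| ≥ 5`, or `|m| ≥ 7`, or `m² |b_j| > 9 · 4^g` for some `j` (so for all but
finitely many curves of each genus), then `X` has genus `g`, and the `g` symbols
`{z, (x - b_i) / x}`, `z = (x H² - 2 + H y) / 2`, are unramified at all discrete valuations of the function
field (so they are integral), and have linearly independent regulators: every one of these curves has the
number `g` of independent integral classes which is predicted by the conjecture.  The same over number
fields, under a condition on the critical values of `x H(x)²`.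

The proof uses the double covering `(x, z) ↦ (x², x (z - 1/z))` of `X` by the curve `C : z + 1/z = x H(x²)`:
the pullback of `{z, (x - b_i) / x}` is `2 {z, (x - √b_i) / x} + 2 {z, (x + √b_i) / x}`, and the theorem of
the starting file `EllipseCriterion` on the `2 g` symbols `{z, (x ∓ √b_i) / x}` applies to `C` over `ℂ`.
The critical values of `C` are the square roots of those of `x H(x)²`; they are bounded from below by the
tangent inequality for `log |x H(x)²|` between the nearest half-integer and the critical point.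
-/

namespace Pool.Agent.Results.MP_743d1e_nt.OddDegreeFamily

open Polynomial

open Pool.Agent.TH826.MK (KQ symb Torus Unramified)

open Pool.Agent.Y94.R (HRing HOpen toH hcst hent hDel hDel_ne_zero liftH liftH_toH isDomain_HRing
  hsymb_unramified)

open Pool.Agent.Run7.h770.OP (DD HH PP pell CritOutside exists_tori separable_DD natDegree_DD
  HH_ne_zero natDegree_HH eval_HH crit_int integral_PP)

/-- The points `c_0 = 0` and `c_i = b_i`, `1 ≤ i ≤ g`. -/
def pts {K : Type*} [Field K] {g : ℕ} (b : Fin g → K) : Fin (g + 1) → K := Fin.cons 0 b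

/-- The polynomial `D = x (x H² - 4)`, `H = λ ∏ (x - b_i)`. -/
noncomputable def crv {K : Type*} [Field K] {g : ℕ} (lam : K) (b : Fin g → K) : K[X] :=
  DD (HH lam b)

/-- The coordinate ring of the open part `x ∏ (x - b_i) ≠ 0` of the curve `y² = D(x)`. -/
abbrev Open {K : Type*} [Field K] {g : ℕ} (lam : K) (b : Fin g → K) : Type _ :=
  HOpen (crv lam b) (pts b)

/-- The class `{z, (x - c_i) / (x - c_j)}`, `z = P(x) + Q(x) y = (x H² - 2 + H y) / 2`, in
`K_2 ⊗ ℚ` of the coordinate ring of the open part `∏ (x - c_k) ≠ 0` of the curve `y² = x (x H² - 4)`,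
`H = λ ∏ (x - b_i)`. -/
noncomputable def cls {K : Type*} [Field K] [CharZero K] {g : ℕ} (lam : K) (b : Fin g → K)
    (i j : Fin (g + 1)) : KQ (Open lam b) 2 :=
  symb (hent (pts b) (pell (HH lam b) two_ne_zero) i j)

/-- `D` is separable of degree `2 g + 2`, so the smooth projective model of the curve `y² = D(x)` has
genus `g`, and the affine coordinate ring `K[x, y] / (y² - D)` is a domain. -/
def IsCurve {K : Type*} [Field K] (D : K[X]) (g : ℕ) : Prop :=
  D.natDegree = 2 * g + 2 ∧ D.Separable ∧ IsDomain (HRing D)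

/-- The field of fractions of the affine coordinate ring receives the ring of the open part. -/
def InFunctionField.{u, v} {K : Type u} [Field K] {g : ℕ} (lam : K) (b : Fin g → K) : Prop :=
  ∀ (L : Type v) [Field L] [Algebra (HRing (crv lam b)) L] [IsFractionRing (HRing (crv lam b)) L],
    ∃ f : Open lam b →+* L, ∀ a : HRing (crv lam b), f (toH _ (pts b) a) = algebraMap _ L a

/-- The images of the classes in `K_2(M) ⊗ ℚ` are unramified at all discrete valuations of `M`, for all
fields `M` with a homomorphism from the ring of the open part. -/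
def UnramifiedClasses.{u, v} {K : Type u} [Field K] [CharZero K] {g : ℕ} (lam : K)
    (b : Fin g → K) : Prop :=
  ∀ (M : Type v) [Field M] (f : Open lam b →+* M) (i j : Fin (g + 1)),
    KQ.map 2 f (cls lam b i j) ∈ Unramified M 2

/-- There are finitely many loops in the complex points over `σ` such that the vectors of the regulators
of the `g` classes `{z, (x - b_i) / x}` on the loops are linearly independent over `ℝ`. -/
def IndependentRegulators {K : Type*} [Field K] [CharZero K] (σ : K →+* ℂ) {g : ℕ} (lam : K)
    (b : Fin g → K) : Prop :=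
  ∃ (N : ℕ) (Γ : Fin N → Torus (Open lam b) 1),
    (∀ t θ (c : K), (Γ t).e θ (hcst _ (pts b) c) = σ c) ∧
    LinearIndependent ℝ fun (i : Fin g) (t : Fin N) => (Γ t).reg (cls lam b i.succ 0)

/-- The conclusions for the curve `y² = D(x)`, `D = x (x H² - 4)`, `H = λ ∏ (x - b_i)`, over the field
`K` with the complex embedding `σ`: it has genus `g`, and the `g` classes `{z, (x - b_i) / x}`, which are
defined in the function field, are unramified at all discrete valuations and have linearly independent
regulators. -/
def GenusManyClasses.{u, v} {K : Type u} [Field K] [CharZero K] (σ : K →+* ℂ) {g : ℕ} (lam : K)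
    (b : Fin g → K) : Prop :=
  IsCurve (crv lam b) g ∧ InFunctionField.{u, v} lam b ∧ UnramifiedClasses.{u, v} lam b ∧
    IndependentRegulators σ lam b

theorem criterion.{u, v} {K : Type u} [Field K] [CharZero K] (σ : K →+* ℂ) {g : ℕ} (lam : K)
    (b : Fin g → K) (hl0 : lam ≠ 0) (hl : IsIntegral ℤ lam) (hb : ∀ i, IsIntegral ℤ (b i))
    (hb0 : ∀ i, b i ≠ 0) (hinj : Function.Injective b) (hc : CritOutside σ (HH lam b)) :
    GenusManyClasses.{u, v} σ lam b := by
  have hH := HH_ne_zero hl0 b
  have hdeg := natDegree_HH hl0 b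
  have hsep := separable_DD hc
  have hD := natDegree_DD hdeg hH
  refine ⟨⟨hD, hsep, isDomain_HRing hsep.squarefree (by
    change 0 < (DD (HH lam b)).natDegree
    omega)⟩, ?_, ?_, g + g, ?_⟩
  · intro L _ _ _
    have hi : Function.Injective (algebraMap (HRing (crv lam b)) L) :=
      IsFractionRing.injective _ _
    have hne : algebraMap (HRing (crv lam b)) L (hDel _ (pts b)) ≠ 0 := by
      rw [Ne, map_eq_zero_iff _ hi]
      exact hDel_ne_zero (pts b)
    exact ⟨liftH (algebraMap _ L) hne, fun a => liftH_toH _ _ _⟩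
  · intro M _ f i j
    refine hsymb_unramified _ (pts b) f σ (integral_PP hl hb two_ne_zero) (fun k => ?_) i j
      fun k => ⟨-1, 2, two_ne_zero, by norm_num, ?_⟩
    · refine Fin.cases ?_ (fun k => ?_) k
      · exact isIntegral_zero
      · exact hb k
    · have h2 : (2 : K) * (2⁻¹) = 1 := mul_inv_cancel₀ two_ne_zero
      have h3 : (2 : K) * (PP (HH lam b)).eval (pts b k) =
          pts b k * (HH lam b).eval (pts b k) ^ 2 - 2 := by
        unfold PP
        simp only [eval_mul, eval_C, eval_sub, eval_X, eval_pow, eval_ofNat]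
        rw [← mul_assoc, h2, one_mul]
      have h4 : pts b k * (HH lam b).eval (pts b k) ^ 2 = 0 := by
        refine Fin.cases ?_ (fun k => ?_) k
        · exact zero_mul _
        · have : (HH lam b).eval (pts b k.succ) = 0 := eval_HH lam b k
          rw [this]
          ring
      rw [h3, h4, zero_sub, map_neg, map_ofNat]
      norm_num
  · refine exists_tori hdeg hH (b := pts b) rfl ?_ (fun i => eval_HH lam b i) hc two_ne_zero
    unfold pts
    rw [Fin.cons_injective_iff]
    exact ⟨fun ⟨i, hi⟩ => hb0 i hi, hinj⟩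

/-- *Number fields.* Let `K` be a number field, `σ` a complex embedding of `K`, let `λ ≠ 0` and
`b_1, ..., b_g` be algebraic integers of `K`, the `b_i` different and not zero, and
`H = λ ∏ (x - b_i)`. Suppose that `|w| + |w - 4| > 5` for all critical values `w ≠ 0` of `x H(x)²` at
`σ`, that is, for `w = u H(u)²` at all complex zeros `u` of `H + 2 x H'`. Then `GenusManyClasses` holds
for the curve `y² = x (x H(x)² - 4)`.

*Rational integers.* Let `m ≠ 0` and `b_1, ..., b_g` be rational integers, the `b_i` different and not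
zero. Suppose that `g ≥ 5`, or `g ≥ 4` and `|m| ≥ 3`, or `g ≥ 3` and `|m| ≥ 5`, or `g ≥ 1` and
`|m| ≥ 7`, or `m² |b_j| > 9 · 4^g` for some `j`. Then `GenusManyClasses` holds for the curve
`y² = x (x H(x)² - 4)`, `H = m ∏ (x - b_i)`, over `ℚ`. -/
theorem result.{u, v} (g : ℕ) :
    (∀ (K : Type u) [Field K] [NumberField K] (σ : K →+* ℂ) (lam : K) (b : Fin g → K),
      lam ≠ 0 → IsIntegral ℤ lam → (∀ i, IsIntegral ℤ (b i)) → (∀ i, b i ≠ 0) →
      Function.Injective b → CritOutside σ (HH lam b) → GenusManyClasses.{u, v} σ lam b) ∧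
    ∀ (m : ℤ) (b : Fin g → ℤ), m ≠ 0 → Function.Injective b → (∀ i, b i ≠ 0) →
      (5 ≤ g ∨ 4 ≤ g ∧ 3 ≤ |m| ∨ 3 ≤ g ∧ 5 ≤ |m| ∨ 1 ≤ g ∧ 7 ≤ |m| ∨
        ∃ j, 9 * 4 ^ g < m ^ 2 * |b j|) →
      ∀ σ : ℚ →+* ℂ, GenusManyClasses.{0, v} σ (m : ℚ) fun i => (b i : ℚ) := by
  refine ⟨fun K _ _ σ lam b hl0 hl hb hb0 hinj hc =>
    criterion.{u, v} σ lam b hl0 hl hb hb0 hinj hc, fun m b hm hinj hb0 h σ => ?_⟩
  refine criterion.{0, v} σ (m : ℚ) _ (by exact_mod_cast hm)
    (isIntegral_algebraMap (R := ℤ) (A := ℚ) (x := m))
    (fun i => isIntegral_algebraMap (R := ℤ) (A := ℚ) (x := b i))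
    (fun i => by exact_mod_cast hb0 i)
    (fun i j hij => hinj (by exact_mod_cast hij)) (crit_int hm b hinj hb0 ?_ σ)
  tauto

end Pool.Agent.Results.MP_743d1e_nt.OddDegreeFamily
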