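import Pool.Agent.N686.DI.Int2
import Pool.Agent.Run7.h153.TL.Unr
import Pool.Agent.Run7.h153.TL.Reg
import Pool.Agent.Run7.h153.TL.Smooth
set_option autoImplicit false

/-!
The Beilinson-Bloch conjecture for `K_2` of curves over `ℚ`: smooth plane curves of every degree.

Let `a_0, ..., a_r` be different integers, `λ ≠ 0` an integer and `L_i = v - a_i u + a_i²`; the lines
`L_i = 0` are the tangents of the parabola `u² = 4 v` at the points `(2 a_i, a_i²)`. The curve

  `λ ∏_i (v - a_i u + a_i² w) = w ^ (r + 1)`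

is, for `r ≥ 4`, always a smooth plane curve of degree `r + 1`, of genus `g = r (r - 1) / 2`, and the
`g` classes `{L_0/d_{0i}, L_i/d_{0i}} + {L_i/d_{ij}, L_j/d_{ij}} + {L_j/d_{j0}, L_0/d_{j0}}`,
`1 ≤ i < j ≤ r`, `d_{ij} = a_i - a_j`, in `K_2 ⊗ ℚ` of the curve are unramified everywhere (also at all
valuations of residue characteristic `p > 0`) and their regulators are linearly independent: EVERY
curve of the family has the number `g` of independent integral classes which is predicted by the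
conjecture.

The curve is the quotient of the curve `C : λ P(x) P(y) = 1`, `P = ∏_i (t - a_i)`, by the involution
which exchanges `x` and `y`: `u = x + y`, `v = x y`. The pullback of `{L_i/d_{ij}, L_j/d_{ij}}` to
`C` is `{x - a_i, y - a_j} - {x - a_j, y - a_i}`, and the independence follows from the theorem about
`C` of the starting file `MP_a09a03_nt.CriticalProduct`. The classes are of the kind used by de Jeu and
Liu for lines in general position.
-/

namespace Pool.Agent.Results.MP_743d1e_nt.TangentLineCurves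

open Polynomial

open Pool.Agent.TH826.MK (KQ Unramified Torus)

open Pool.Agent.Run7.h153.TL

/-- The conclusions for the curve `λ ∏_i (v - a_i u + a_i²) = 1`, `0 ≤ i ≤ r`, over the field `K`
with the complex embedding `σ`. The coordinate ring `DRing lam a` of the affine curve is a domain. Its
projective closure `λ ∏_i (v - a_i u + a_i² w) = w ^ (r + 1)` is smooth at all complex points over `σ`;
so it is a smooth plane curve of degree `r + 1`, of genus `r (r - 1) / 2`. The `r (r - 1) / 2` classes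
`tri lam a 0 i j`, `1 ≤ i < j ≤ r`, where `tri lam a i j k` is
`{L_i/d_{ij}, L_j/d_{ij}} + {L_j/d_{jk}, L_k/d_{jk}} + {L_k/d_{ki}, L_i/d_{ki}}`,
`L_i = v - a_i u + a_i²`, `d_{ij} = a_i - a_j`, are elements of `K_2 ⊗ ℚ` of the coordinate ring, and
their images in `K_2(M) ⊗ ℚ` are unramified at all discrete valuations of `M`, for all fields `M` with
a homomorphism `DRing lam a → M`, for example for the function field of the curve. There are finitely
many loops in the complex points of the curve over `σ` such that the vectors of the regulators of the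
`r (r - 1) / 2` classes on the loops are linearly independent over `ℝ`. -/
def GenusManyClasses.{u, v} {r : ℕ} {K : Type u} [Field K] (σ : K →+* ℂ) (lam : K)
    (a : Fin (r + 1) → K) : Prop :=
  IsDomain (DRing lam a) ∧
  (∀ z : Fin 3 → ℂ, z ≠ 0 → MvPolynomial.eval₂ σ z (heqn lam a) = 0 →
    ∃ k, MvPolynomial.eval₂ σ z (MvPolynomial.pderiv k (heqn lam a)) ≠ 0) ∧
  (∀ (M : Type v) [Field M] (f : DRing lam a →+* M) (i j : Fin r), i < j →
    KQ.map 2 f (tri lam a 0 i.succ j.succ) ∈ Unramified M 2) ∧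
  ∃ (N : ℕ) (Γ : Fin N → Torus (DRing lam a) 1),
    (∀ t θ (x : K), (Γ t).e θ (toD lam a (MvPolynomial.C x)) = σ x) ∧
    LinearIndependent ℝ (fun (s : {s : Fin r × Fin r // s.1 < s.2}) (t : Fin N) =>
      (Γ t).reg (tri lam a 0 s.1.1.succ s.1.2.succ))

theorem criterion.{u, v} {r : ℕ} {K : Type u} [Field K] (σ : K →+* ℂ)
    (lam : K) (a : Fin (r + 1) → K) (hl0 : lam ≠ 0) (hlam : IsIntegral ℤ lam)
    (hint : ∀ i, IsIntegral ℤ (a i)) (ha : Function.Injective a)
    (hcrit : ∀ ξ η : ℂ, (derivative (∏ i, (X - C (σ (a i))))).eval ξ = 0 →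
      (derivative (∏ i, (X - C (σ (a i))))).eval η = 0 →
      1 < ‖σ lam * (∏ i, (ξ - σ (a i))) * ∏ i, (η - σ (a i))‖) :
    GenusManyClasses.{u, v} σ lam a :=
  ⟨isDomain_DRing σ hl0 ha, smooth σ hl0 ha hcrit,
    fun _ _ f _ _ hij => tri_mem hlam hint ha f (Fin.succ_ne_zero _).symm
      (fun h => hij.ne (Fin.succ_injective _ h)) (Fin.succ_ne_zero _),
    independent σ hl0 ha hcrit⟩

open Pool.Agent.N686.DI (mm mm_succ mm_two mm_pos mm_le_succ crit_int) in
/-- few integral roots -/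
theorem one_lt_of_int {r : ℕ} (b : Fin (r + 1) → ℤ) (hb : Function.Injective b) {m : ℤ} {n : ℕ}
    (hn : 2 ≤ n) (hr : n ≤ r + 1) (hm : 1 < ((|m| : ℤ) : ℝ) * mm n * mm n) {ξ η : ℂ}
    (hξ : (derivative (∏ i, (X - C (b i : ℂ)))).eval ξ = 0)
    (hη : (derivative (∏ i, (X - C (b i : ℂ)))).eval η = 0) :
    1 < ‖(m : ℂ) * (∏ i, (ξ - (b i : ℂ))) * ∏ i, (η - (b i : ℂ))‖ := by
  have hmono : mm n ≤ mm (r + 1) := by
    obtain ⟨k, hk⟩ := Nat.exists_eq_add_of_le hr
    rw [hk]
    clear hk hr hm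
    induction k with
    | zero => exact le_rfl
    | succ k ih => exact ih.trans (mm_le_succ (by omega))
  have h1 := hmono.trans (crit_int (Nat.succ_pos r) b hb hξ)
  have h2 := hmono.trans (crit_int (Nat.succ_pos r) b hb hη)
  have h3 : ((|m| : ℤ) : ℝ) ≤ ‖(m : ℂ)‖ := by
    rw [Complex.norm_intCast]
    push_cast
    exact le_rfl
  rw [norm_mul, norm_mul]
  refine hm.trans_le ?_
  have hp := (mm_pos n).le
  have hq : (0 : ℝ) ≤ ((|m| : ℤ) : ℝ) := by exact_mod_cast abs_nonneg m
  exact mul_le_mul (mul_le_mul h3 h1 hp (norm_nonneg _)) h2 hp (by positivity)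

/-- *Number fields.* Let `K` be a number field, `σ` a complex embedding of `K`, let `λ ≠ 0` and
`a_0, ..., a_r` be algebraic integers of `K`, `a_i ≠ a_j` for `i ≠ j`, and `P = ∏_i (t - a_i)`.
Suppose that `|σ(λ) P(ξ) P(η)| > 1` for all complex zeros `ξ` and `η` of the derivative of `P` (at
`σ`). Then `GenusManyClasses` holds for the curve `λ ∏_i (v - a_i u + a_i²) = 1`.

*Rational integers.* Let `m` and `b_0, ..., b_r` be rational integers, `b_i ≠ b_j` for `i ≠ j`.
Suppose that `m ≠ 0` and `r ≥ 4`, or `|m| ≥ 4` and `r ≥ 3`, or `|m| ≥ 8` and `r ≥ 2`, or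
`|m| (b_i - b_j)² > 64` for some `i`, `j`. Then `GenusManyClasses` holds for the curve
`m ∏_i (v - b_i u + b_i²) = 1` over `ℚ`. -/
theorem result.{u, v} (r : ℕ) :
    (∀ (K : Type u) [Field K] [NumberField K] (σ : K →+* ℂ) (lam : K) (a : Fin (r + 1) → K),
      lam ≠ 0 → IsIntegral ℤ lam → (∀ i, IsIntegral ℤ (a i)) → Function.Injective a →
      (∀ ξ η : ℂ, (derivative (∏ i, (X - C (σ (a i))))).eval ξ = 0 →
        (derivative (∏ i, (X - C (σ (a i))))).eval η = 0 →
        1 < ‖σ lam * (∏ i, (ξ - σ (a i))) * ∏ i, (η - σ (a i))‖) →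
      GenusManyClasses.{u, v} σ lam a) ∧
    ∀ (m : ℤ) (b : Fin (r + 1) → ℤ), Function.Injective b →
      (m ≠ 0 ∧ 4 ≤ r ∨ 4 ≤ |m| ∧ 3 ≤ r ∨ 8 ≤ |m| ∧ 2 ≤ r ∨ ∃ i j, 64 < |m| * (b i - b j) ^ 2) →
      ∀ σ : ℚ →+* ℂ, GenusManyClasses.{0, v} σ (m : ℚ) fun i => (b i : ℚ) := by
  refine ⟨fun K _ _ σ lam a => criterion.{u, v} σ lam a, fun m b hb h σ => ?_⟩
  have hm0 : m ≠ 0 := by
    rintro rfl
    rcases h with h | h | h | ⟨i, j, h⟩
    · exact h.1 rfl
    · simp at h
    · simp at h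
    · simp at h
  refine criterion.{0, v} σ (m : ℚ) _ (by exact_mod_cast hm0)
    (isIntegral_algebraMap (R := ℤ) (A := ℚ) (x := m))
    (fun i => isIntegral_algebraMap (R := ℤ) (A := ℚ) (x := b i))
    (fun i j hij => hb (by exact_mod_cast hij)) fun ξ η hξ hη => ?_
  simp only [map_intCast] at hξ hη ⊢
  have h3 : Pool.Agent.N686.DI.mm 3 = 3 / 8 := by
    rw [Pool.Agent.N686.DI.mm_succ, Pool.Agent.N686.DI.mm_two]
    norm_num
  have h4 : Pool.Agent.N686.DI.mm 4 = 9 / 16 := by
    rw [Pool.Agent.N686.DI.mm_succ, h3]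
    norm_num
  rcases h with h | h | h | ⟨i, j, h⟩
  · exact Pool.Agent.N686.DI.one_lt_of_int_five h.2 h.2 b hb b hb h.1 hξ hη
  · refine one_lt_of_int b hb (n := 4) (by norm_num) (by omega) ?_ hξ hη
    have : (4 : ℝ) ≤ ((|m| : ℤ) : ℝ) := by exact_mod_cast h.1
    rw [h4]
    linarith
  · refine one_lt_of_int b hb (n := 3) (by norm_num) (by omega) ?_ hξ hη
    have : (8 : ℝ) ≤ ((|m| : ℤ) : ℝ) := by exact_mod_cast h.1
    rw [h3]
    linarith
  · refine Pool.Agent.N686.DI.one_lt_of_int_diam b hb b hb i j i j ?_ hξ hη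
    rw [mul_assoc, abs_mul_abs_self, ← sq]
    exact h

end Pool.Agent.Results.MP_743d1e_nt.TangentLineCurves
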